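import Mathlib

/-!
# Extremal species trees for duplication-loss histories

At a point `z > 0` the values `E_u = 1 + H_u(z)` satisfy `E_u = G (E_l E_r)`, where
`G x = (3 - √(5 - 4x))/2` is the inverse function of `φ t = 3t - 1 - t²`. As `G x / x` increases and
`log ∘ G ∘ exp` is convex, the sequences of the values for the caterpillars and for the balanced
trees are log-convex, so the first are the largest and the second the smallest values for trees with
`k` leaves. The radius of convergence is the solution of `E_l E_r = 5/4` at the root.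
-/

set_option autoImplicit false

namespace Pool.Agent.Results.MP_f5c34b_co.ExtremalSpeciesTrees

open Finset PowerSeries Filter Topology

/-- species trees, as ordered trees -/
inductive Sp where
  | leaf : Sp
  | node : Sp → Sp → Sp

namespace Sp

/-- the number of leaves -/
def size : Sp → ℕ
  | leaf => 1
  | node l r => size l + size r

/-- the caterpillar with `k ≥ 1` leaves -/
def CT : ℕ → Sp
  | 0 => leaf
  | 1 => leaf
  | k + 2 => node (CT (k + 1)) leaf

/-- the balanced tree with `k ≥ 1` leaves -/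
def BT (k : ℕ) : Sp :=
  if k ≤ 1 then leaf else node (BT (k / 2)) (BT (k - k / 2))
termination_by k
decreasing_by all_goals omega

/-- at every internal node the leaf counts of the two subtrees differ by at most one -/
def Balanced : Sp → Prop
  | leaf => True
  | node l r => Balanced l ∧ Balanced r ∧ size l ≤ size r + 1 ∧ size r ≤ size l + 1

end Sp

open Sp

/-- `B = ∑_{m ≥ 1} C_{m-1} X^m = (1 - √(1 - 4X))/2`, with the Catalan numbers `C_m` -/
noncomputable def B : ℝ⟦X⟧ := X * catalanSeries.map (Nat.castRingHom ℝ)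

/-- the generating function at the root of `S` -/
noncomputable def H : Sp → ℝ⟦X⟧
  | leaf => B
  | node l r => B.subst (H l * H r + H l + H r)

/-- the number of DL-histories of size `n` -/
noncomputable def h (S : Sp) (n : ℕ) : ℝ := coeff n (H S)

/-- the exponential growth factor -/
noncomputable def alpha (S : Sp) : ℝ := limUnder atTop (fun n : ℕ => (h S n) ^ (1 / (n : ℝ)))

/-! ### the power series -/

theorem B_eq : B = X + B ^ 2 := by
  have h1 := congrArg (PowerSeries.map (Nat.castRingHom ℝ)) catalanSeries_sq_mul_X_add_one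
  rw [map_add, map_mul, map_pow, map_one, PowerSeries.map_X] at h1
  unfold B
  nth_rewrite 1 [← h1]
  ring

theorem B_const : constantCoeff B = 0 := by
  unfold B; simp

theorem H_node_comm (l r : Sp) : H (node l r) = H (node r l) := by
  unfold H
  congr 1
  ring

theorem H_const (S : Sp) : constantCoeff (H S) = 0 := by
  induction S with
  | leaf => exact B_const
  | node l r ihl ihr =>
    have h0 : constantCoeff (H l * H r + H l + H r) = 0 := by simp [ihl, ihr]
    unfold H
    exact constantCoeff_subst_eq_zero h0 B B_const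

theorem H_leaf : H leaf = X + H leaf ^ 2 := B_eq

theorem H_node (l r : Sp) :
    H (node l r) = (H l * H r + H l + H r) + H (node l r) ^ 2 := by
  have h0 : constantCoeff (H l * H r + H l + H r) = 0 := by simp [H_const]
  have hs : HasSubst (H l * H r + H l + H r) := HasSubst.of_constantCoeff_zero' h0
  conv_lhs => unfold H
  rw [B_eq, subst_add hs, subst_pow hs, subst_X hs]
  rfl

/-- the coefficients of `W` -/
noncomputable def w : Sp → ℕ → ℝ
  | leaf, n => if n = 1 then 1 else 0
  | node l r, n => ∑ p ∈ antidiagonal n, h l p.1 * h r p.2 + h l n + h r n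

theorem h_rec (S : Sp) (n : ℕ) : h S n = w S n + ∑ p ∈ antidiagonal n, h S p.1 * h S p.2 := by
  cases S with
  | leaf =>
    unfold h w
    conv_lhs => rw [H_leaf]
    rw [map_add, coeff_X, pow_two, coeff_mul]
  | node l r =>
    unfold h w
    conv_lhs => rw [H_node]
    rw [map_add, pow_two, coeff_mul, map_add, map_add, coeff_mul]
    rfl

theorem h_zero (S : Sp) : h S 0 = 0 := by
  unfold h
  rw [coeff_zero_eq_constantCoeff_apply, H_const]

theorem h_nonneg_of {S : Sp} (hw : ∀ n, 0 ≤ w S n) (n : ℕ) : 0 ≤ h S n := by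
  induction n using Nat.strong_induction_on with
  | _ n ih =>
    rw [h_rec]
    apply add_nonneg (hw n)
    apply sum_nonneg
    intro p hp
    rw [HasAntidiagonal.mem_antidiagonal] at hp
    rcases Nat.eq_zero_or_pos p.1 with h1 | h1
    · rw [h1, h_zero, zero_mul]
    rcases Nat.eq_zero_or_pos p.2 with h2 | h2
    · rw [h2, h_zero, mul_zero]
    exact mul_nonneg (ih _ (by omega)) (ih _ (by omega))

theorem w_nonneg_h_nonneg (S : Sp) : (∀ n, 0 ≤ w S n) ∧ ∀ n, 0 ≤ h S n := by
  induction S with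
  | leaf =>
    have hw : ∀ n, 0 ≤ w leaf n := by
      intro n; simp only [w]; split_ifs <;> norm_num
    exact ⟨hw, h_nonneg_of hw⟩
  | node l r ihl ihr =>
    have hw : ∀ n, 0 ≤ w (node l r) n := by
      intro n
      simp only [w]
      have h1 : 0 ≤ ∑ p ∈ antidiagonal n, h l p.1 * h r p.2 :=
        sum_nonneg (fun p _ => mul_nonneg (ihl.2 _) (ihr.2 _))
      have h2 := ihl.2 n
      have h3 := ihr.2 n
      positivity
    exact ⟨hw, h_nonneg_of hw⟩

theorem h_nonneg (S : Sp) (n : ℕ) : 0 ≤ h S n := (w_nonneg_h_nonneg S).2 n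
theorem w_nonneg (S : Sp) (n : ℕ) : 0 ≤ w S n := (w_nonneg_h_nonneg S).1 n

theorem w_le_h (S : Sp) (n : ℕ) : w S n ≤ h S n := by
  rw [h_rec]
  have : 0 ≤ ∑ p ∈ antidiagonal n, h S p.1 * h S p.2 :=
    sum_nonneg (fun p _ => mul_nonneg (h_nonneg _ _) (h_nonneg _ _))
  linarith

theorem h_super (S : Sp) (m n : ℕ) : h S m * h S n ≤ h S (m + n) := by
  conv_rhs => rw [h_rec]
  have h1 : h S m * h S n ≤ ∑ p ∈ antidiagonal (m + n), h S p.1 * h S p.2 :=
    single_le_sum (f := fun p : ℕ × ℕ => h S p.1 * h S p.2)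
      (fun p _ => mul_nonneg (h_nonneg _ _) (h_nonneg _ _))
      (show (m, n) ∈ antidiagonal (m + n) by rw [HasAntidiagonal.mem_antidiagonal])
  have h2 := w_nonneg S (m + n)
  linarith

theorem h_one (S : Sp) : 1 ≤ h S 1 := by
  induction S with
  | leaf =>
    have := w_le_h leaf 1
    simp only [w, if_true] at this
    exact this
  | node l r ihl ihr =>
    have h1 := w_le_h (node l r) 1
    simp only [w] at h1
    have h2 : 0 ≤ ∑ p ∈ antidiagonal 1, h l p.1 * h r p.2 :=
      sum_nonneg (fun p _ => mul_nonneg (h_nonneg _ _) (h_nonneg _ _))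
    linarith

theorem h_pos (S : Sp) {n : ℕ} (hn : 1 ≤ n) : 0 < h S n := by
  have : 1 ≤ h S n := by
    induction n, hn using Nat.le_induction with
    | base => exact h_one S
    | succ n _ ih =>
      have h1 := h_super S n 1
      have h2 := h_one S
      nlinarith
  linarith

/-! ### the functions `G` and `φ` -/

/-- the smaller solution of `φ t = x` -/
noncomputable def G (x : ℝ) : ℝ := (3 - Real.sqrt (5 - 4 * x)) / 2

/-- the inverse function of `G` -/
def phi (t : ℝ) : ℝ := 3 * t - 1 - t ^ 2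

theorem G_mono {x y : ℝ} (hxy : x ≤ y) : G x ≤ G y := by
  unfold G
  have := Real.sqrt_le_sqrt (show 5 - 4 * y ≤ 5 - 4 * x by linarith)
  linarith

theorem G_lt {x y : ℝ} (hxy : x < y) (hy : y ≤ 5 / 4) : G x < G y := by
  unfold G
  have := Real.sqrt_lt_sqrt (show 0 ≤ 5 - 4 * y by linarith) (show 5 - 4 * y < 5 - 4 * x by linarith)
  linarith

theorem phi_G {x : ℝ} (hx : x ≤ 5 / 4) : phi (G x) = x := by
  unfold phi G
  have := Real.sq_sqrt (show 0 ≤ 5 - 4 * x by linarith)
  nlinarith

theorem G_le (x : ℝ) : G x ≤ 3 / 2 := by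
  unfold G
  have := Real.sqrt_nonneg (5 - 4 * x)
  linarith

theorem G_one : G 1 = 1 := by
  unfold G
  rw [show (5 : ℝ) - 4 * 1 = 1 by norm_num, Real.sqrt_one]
  norm_num

theorem one_le_G {x : ℝ} (hx : 1 ≤ x) : 1 ≤ G x := by
  rw [← G_one]; exact G_mono hx

theorem G_le_of {x t : ℝ} (ht : x ≤ phi t) : G x ≤ t := by
  unfold G
  unfold phi at ht
  have h1 : (3 - 2 * t) ^ 2 ≤ 5 - 4 * x := by nlinarith
  have h2 := Real.sqrt_le_sqrt h1
  rw [Real.sqrt_sq_eq_abs] at h2
  have h3 := le_abs_self (3 - 2 * t)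
  linarith

theorem phi_le (t : ℝ) : phi t ≤ 5 / 4 := by
  unfold phi; nlinarith [sq_nonneg (2 * t - 3)]

theorem phi_le_self (t : ℝ) : phi t ≤ t := by
  unfold phi; nlinarith [sq_nonneg (t - 1)]

theorem le_G {x : ℝ} (hx : x ≤ 5 / 4) : x ≤ G x := by
  have := phi_le_self (G x)
  rwa [phi_G hx] at this

theorem G_of_gt {x : ℝ} (hx : 5 / 4 < x) : G x = 3 / 2 := by
  unfold G
  rw [Real.sqrt_eq_zero_of_nonpos (by linarith)]
  norm_num

/-- `G x / x` is increasing -/
theorem ratio {s t : ℝ} (hs : 1 ≤ s) (hst : s < t) : phi t * s < phi s * t := by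
  unfold phi
  have h1 : 0 < (t - s) * (s * t - 1) := by
    apply mul_pos (by linarith)
    nlinarith
  nlinarith

/-- `log ∘ φ ∘ exp` is concave -/
theorem concave {a b m : ℝ} (ha : 1 ≤ a) (hb : 1 ≤ b) (ha' : a ≤ 3 / 2) (hb' : b ≤ 3 / 2)
    (hm : 1 ≤ m) (hm' : m ≤ 3 / 2) (hab : a ≠ b) (h : phi m ^ 2 ≤ phi a * phi b) :
    m ^ 2 < a * b := by
  by_contra hc
  push Not at hc
  set r := Real.sqrt (a * b) with hr
  have hab1 : 1 ≤ a * b := by nlinarith
  have hrr : r ^ 2 = a * b := Real.sq_sqrt (by linarith)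
  have hr0 : 0 ≤ r := Real.sqrt_nonneg _
  have hr1 : 1 ≤ r := by nlinarith
  have hrm : r ≤ m := by nlinarith
  have h1 : phi r ≤ phi m := by
    unfold phi
    nlinarith
  have h2 : 0 < phi r := by
    unfold phi
    nlinarith
  have h3 : phi r ^ 2 ≤ phi m ^ 2 := by nlinarith
  have h4 : 2 * r < a + b := by
    have h5 : 0 < (a - b) ^ 2 := by positivity
    nlinarith
  have h5 : 1 < a * b := by
    rcases lt_or_gt_of_ne hab with h6 | h6 <;> nlinarith
  have h6 : phi a * phi b - phi r ^ 2 = (a + b - 2 * r) * (a + b + 2 * r - 3 * (1 + a * b)) := by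
    unfold phi
    linear_combination (-(a * b) - r ^ 2 - 7 + 6 * r) * hrr
  have h7 : (a + b - 2 * r) * (a + b + 2 * r - 3 * (1 + a * b)) < 0 := by
    apply mul_neg_of_pos_of_neg (by linarith)
    linarith
  linarith

/-! ### the values at a point -/

/-- the value of `1 + H` -/
noncomputable def E : Sp → ℝ → ℝ
  | leaf, z => G (1 + z)
  | node l r, z => G (E l z * E r z)

/-- the value of `1 + W` -/
noncomputable def Xv : Sp → ℝ → ℝ
  | leaf, z => 1 + z
  | node l r, z => E l z * E r z

theorem E_eq (S : Sp) (z : ℝ) : E S z = G (Xv S z) := by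
  cases S <;> rfl

theorem Xv_node (l r : Sp) (z : ℝ) : Xv (node l r) z = E l z * E r z := rfl

theorem Xv_leaf (z : ℝ) : Xv leaf z = 1 + z := rfl

theorem one_le_XE {z : ℝ} (hz : 0 ≤ z) (S : Sp) : 1 ≤ Xv S z ∧ 1 ≤ E S z := by
  induction S with
  | leaf =>
    have h1 : 1 ≤ Xv leaf z := by rw [Xv_leaf]; linarith
    exact ⟨h1, by rw [E_eq]; exact one_le_G h1⟩
  | node l r ihl ihr =>
    have h1 : 1 ≤ Xv (node l r) z := by rw [Xv_node]; nlinarith [ihl.2, ihr.2]
    exact ⟨h1, by rw [E_eq]; exact one_le_G h1⟩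

theorem one_le_E {z : ℝ} (hz : 0 ≤ z) (S : Sp) : 1 ≤ E S z := (one_le_XE hz S).2
theorem one_le_X {z : ℝ} (hz : 0 ≤ z) (S : Sp) : 1 ≤ Xv S z := (one_le_XE hz S).1
theorem E_le (S : Sp) (z : ℝ) : E S z ≤ 3 / 2 := by rw [E_eq]; exact G_le _

theorem one_lt_XE {z : ℝ} (hz : 0 < z) (S : Sp) : 1 < Xv S z ∧ 1 < E S z := by
  have key : ∀ x, 1 < x → 1 < G x := by
    intro x hx
    rcases le_or_gt x (5 / 4) with h | h
    · exact lt_of_lt_of_le hx (le_G h)
    · rw [G_of_gt h]; norm_num
  induction S with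
  | leaf =>
    have h1 : 1 < Xv leaf z := by rw [Xv_leaf]; linarith
    exact ⟨h1, by rw [E_eq]; exact key _ h1⟩
  | node l r ihl ihr =>
    have h1 : 1 < Xv (node l r) z := by rw [Xv_node]; nlinarith [ihl.2, ihr.2]
    exact ⟨h1, by rw [E_eq]; exact key _ h1⟩

theorem one_lt_E {z : ℝ} (hz : 0 < z) (S : Sp) : 1 < E S z := (one_lt_XE hz S).2

theorem X_le_E {z : ℝ} {S : Sp} (h : Xv S z ≤ 5 / 4) : Xv S z ≤ E S z := by
  rw [E_eq]; exact le_G h

theorem child {z : ℝ} (hz : 0 ≤ z) {l r : Sp} (h : Xv (node l r) z ≤ 5 / 4) :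
    Xv l z ≤ 5 / 4 ∧ Xv r z ≤ 5 / 4 := by
  rw [Xv_node] at h
  have hl := one_le_E hz l
  have hr := one_le_E hz r
  have key : ∀ S : Sp, E S z ≤ 5 / 4 → Xv S z ≤ 5 / 4 := by
    intro S hS
    by_contra hc
    push Not at hc
    rw [E_eq, G_of_gt hc] at hS
    norm_num at hS
  exact ⟨key l (by nlinarith), key r (by nlinarith)⟩

theorem E_lt_of_X_lt {z z' : ℝ} {S S' : Sp} (h : Xv S z < Xv S' z') (h' : Xv S' z' ≤ 5 / 4) :
    E S z < E S' z' := by
  rw [E_eq, E_eq]; exact G_lt h h'

theorem E_le_of_X_le {z z' : ℝ} {S S' : Sp} (h : Xv S z ≤ Xv S' z') : E S z ≤ E S' z' := by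
  rw [E_eq, E_eq]; exact G_mono h

/-- monotone in `z` -/
theorem X_mono {z z' : ℝ} (hz : 0 ≤ z) (hzz : z ≤ z') (S : Sp) : Xv S z ≤ Xv S z' := by
  induction S with
  | leaf => rw [Xv_leaf, Xv_leaf]; linarith
  | node l r ihl ihr =>
    rw [Xv_node, Xv_node]
    have h1 := E_le_of_X_le ihl
    have h2 := E_le_of_X_le ihr
    have h3 := one_le_E hz l
    have h4 := one_le_E hz r
    nlinarith

theorem X_strict {z z' : ℝ} (hz : 0 ≤ z) (hzz : z < z') (S : Sp) (h : Xv S z' ≤ 5 / 4) :
    Xv S z < Xv S z' := by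
  induction S with
  | leaf => rw [Xv_leaf, Xv_leaf]; linarith
  | node l r ihl ihr =>
    obtain ⟨c1, c2⟩ := child (by linarith) h
    rw [Xv_node, Xv_node]
    have h1 := E_lt_of_X_lt (ihl c1) c1
    have h2 := E_lt_of_X_lt (ihr c2) c2
    have h3 := one_le_E hz l
    have h4 := one_le_E hz r
    nlinarith

/-! ### log-convex sequences -/

theorem swap_lt {c : ℕ → ℝ} (hc : ∀ m, 0 < c m) {K : ℕ}
    (hconv : ∀ m, 2 ≤ m → m + 1 ≤ K → c m ^ 2 < c (m - 1) * c (m + 1)) {i j : ℕ} (hj : 1 ≤ j)
    (hij : j + 2 ≤ i) (hi : i ≤ K) : c (j + 1) * c (i - 1) < c j * c i := by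
  induction i, hij using Nat.le_induction with
  | base =>
    have := hconv (j + 1) (by omega) (by omega)
    rw [show j + 1 - 1 = j by omega, show j + 1 + 1 = j + 2 by omega] at this
    rw [show j + 2 - 1 = j + 1 by omega]
    nlinarith
  | succ i hi' ih =>
    have h1 := ih (by omega)
    have h2 := hconv i (by omega) (by omega)
    rw [show i + 1 - 1 = i by omega]
    have p1 := hc (i - 1)
    have p2 := hc i
    have p3 := hc j
    have p4 := hc (i + 1)
    have p5 := hc (j + 1)
    have h3 : (c (j + 1) * c i) * (c (i - 1) * c i) < (c j * c (i + 1)) * (c (i - 1) * c i) := by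
      have e1 : c (j + 1) * c (i - 1) * c i ^ 2 < c j * c i * c i ^ 2 :=
        mul_lt_mul_of_pos_right h1 (by positivity)
      have e2 : c j * c i * c i ^ 2 < c j * c i * (c (i - 1) * c (i + 1)) :=
        mul_lt_mul_of_pos_left h2 (by positivity)
      nlinarith
    exact lt_of_mul_lt_mul_right h3 (by positivity)

/-- the balanced product is the smallest one -/
theorem half_le {c : ℕ → ℝ} (hc : ∀ m, 0 < c m) {K : ℕ}
    (hconv : ∀ m, 2 ≤ m → m + 1 ≤ K → c m ^ 2 < c (m - 1) * c (m + 1)) :
    ∀ (d i j : ℕ), i = j + d → 1 ≤ j → i ≤ K →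
      c ((i + j) / 2) * c (i + j - (i + j) / 2) ≤ c i * c j ∧
      (2 ≤ d → c ((i + j) / 2) * c (i + j - (i + j) / 2) < c i * c j) := by
  intro d
  induction d using Nat.strong_induction_on with
  | _ d ih =>
    intro i j hd hj hi
    rcases Nat.lt_or_ge d 2 with h1 | h1
    · have e1 : (i + j) / 2 = j := by omega
      have e2 : i + j - j = i := by omega
      rw [e1, e2]
      exact ⟨by rw [mul_comm], fun h => absurd h (by omega)⟩
    · have h2 := (ih (d - 2) (by omega) (i - 1) (j + 1) (by omega) (by omega) (by omega)).1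
      have e : i - 1 + (j + 1) = i + j := by omega
      rw [e] at h2
      have h3 := swap_lt hc hconv hj (by omega : j + 2 ≤ i) hi
      have h4 : c ((i + j) / 2) * c (i + j - (i + j) / 2) < c i * c j := by
        calc _ ≤ c (i - 1) * c (j + 1) := h2
          _ = c (j + 1) * c (i - 1) := mul_comm _ _
          _ < c j * c i := h3
          _ = c i * c j := mul_comm _ _
      exact ⟨h4.le, fun _ => h4⟩

/-- the extreme product is the largest one -/
theorem ext_ge {c : ℕ → ℝ} (hc : ∀ m, 0 < c m) {K : ℕ}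
    (hconv : ∀ m, 2 ≤ m → m + 1 ≤ K → c m ^ 2 < c (m - 1) * c (m + 1)) :
    ∀ (j i : ℕ), j ≤ i → 1 ≤ j → i + j ≤ K + 1 →
      c i * c j ≤ c (i + j - 1) * c 1 ∧ (2 ≤ j → c i * c j < c (i + j - 1) * c 1) := by
  intro j
  induction j with
  | zero => intro i _ h; omega
  | succ j ih =>
    intro i hji _ hK
    rcases Nat.eq_zero_or_pos j with h0 | h0
    · subst h0
      exact ⟨by rw [show i + (0 + 1) - 1 = i by omega], fun h => absurd h (by omega)⟩
    · have h2 := (ih (i + 1) (by omega) h0 (by omega)).1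
      rw [show i + 1 + j - 1 = i + (j + 1) - 1 by omega] at h2
      have h3 := swap_lt hc hconv h0 (by omega : j + 2 ≤ i + 1) (by omega)
      rw [show i + 1 - 1 = i by omega] at h3
      have h4 : c i * c (j + 1) < c (i + (j + 1) - 1) * c 1 := by
        calc c i * c (j + 1) = c (j + 1) * c i := mul_comm _ _
          _ < c j * c (i + 1) := h3
          _ = c (i + 1) * c j := mul_comm _ _
          _ ≤ _ := h2
      exact ⟨h4.le, fun _ => h4⟩

/-! ### caterpillars -/

theorem size_CT : ∀ k, 1 ≤ k → size (CT k) = k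
  | 0, h => by omega
  | 1, _ => rfl
  | k + 2, _ => by
    rw [CT, size, size_CT (k + 1) (by omega)]; rfl

theorem CT_succ (k : ℕ) (hk : 1 ≤ k) : CT (k + 1) = node (CT k) leaf := by
  obtain ⟨m, rfl⟩ : ∃ m, k = m + 1 := ⟨k - 1, by omega⟩
  rfl

theorem Xv_CT (k : ℕ) (hk : 1 ≤ k) (z : ℝ) : Xv (CT (k + 1)) z = E (CT k) z * E (CT 1) z := by
  rw [CT_succ k hk, Xv_node]; rfl

theorem CT_child {z : ℝ} (hz : 0 ≤ z) {k : ℕ} (hk : 1 ≤ k) (h : Xv (CT (k + 1)) z ≤ 5 / 4) :
    Xv (CT k) z ≤ 5 / 4 := by
  rw [CT_succ k hk] at h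
  exact (child hz h).1

theorem CT_dom {z : ℝ} (hz : 0 ≤ z) {m k : ℕ} (hm : 1 ≤ m) (hmk : m ≤ k)
    (h : Xv (CT k) z ≤ 5 / 4) : Xv (CT m) z ≤ 5 / 4 := by
  induction k, hmk using Nat.le_induction with
  | base => exact h
  | succ k hk ih => exact ih (CT_child hz (by omega) h)

theorem CT_mono {z : ℝ} (hz : 0 < z) {m : ℕ} (hm : 1 ≤ m) (h : Xv (CT (m + 1)) z ≤ 5 / 4) :
    Xv (CT m) z < Xv (CT (m + 1)) z := by
  induction m, hm using Nat.le_induction with
  | base =>
    have h1 := CT_child hz.le (le_refl 1) h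
    have h2 := X_le_E h1
    have h3 := one_lt_E hz (CT 1)
    rw [Xv_CT 1 (le_refl _)]
    nlinarith
  | succ m hm ih =>
    have h1 := CT_child hz.le (by omega) h
    have h2 := E_lt_of_X_lt (ih h1) h1
    rw [Xv_CT m hm, Xv_CT (m + 1) (by omega)]
    have h3 := one_lt_E hz (CT 1)
    nlinarith

theorem CT_conv {z : ℝ} (hz : 0 < z) {m : ℕ} (hm : 2 ≤ m) (h : Xv (CT (m + 1)) z ≤ 5 / 4) :
    E (CT m) z ^ 2 < E (CT (m - 1)) z * E (CT (m + 1)) z := by
  have hX : Xv (CT m) z ≤ 5 / 4 := CT_child hz.le (by omega) h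
  have h1 := E_lt_of_X_lt (CT_mono hz (by omega) h) h
  have h2 := ratio (one_le_E hz.le _) h1
  rw [E_eq (CT m), E_eq (CT (m + 1)), phi_G hX, phi_G h, ← E_eq, ← E_eq, Xv_CT m (by omega)] at h2
  obtain ⟨p, rfl⟩ : ∃ p, m = p + 1 := ⟨m - 1, by omega⟩
  rw [Xv_CT p (by omega)] at h2
  rw [show p + 1 - 1 = p by omega]
  have h3 := one_lt_E hz (CT 1)
  have h4 : (E (CT (p + 1)) z ^ 2) * E (CT 1) z < (E (CT p) z * E (CT (p + 1 + 1)) z) * E (CT 1) z := by
    nlinarith
  exact lt_of_mul_lt_mul_right h4 (by linarith)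

theorem CT_max {z : ℝ} (hz : 0 < z) (S : Sp) (h : Xv (CT (size S)) z ≤ 5 / 4) :
    Xv S z ≤ Xv (CT (size S)) z ∧ (Xv S z < Xv (CT (size S)) z ∨ H S = H (CT (size S))) := by
  induction S with
  | leaf => exact ⟨le_refl _, Or.inr rfl⟩
  | node l r ihl ihr =>
    have hpos : ∀ S : Sp, 1 ≤ size S := by
      intro S; induction S with
      | leaf => exact le_refl _
      | node l r ihl ihr => rw [size]; omega
    -- the case in which the right subtree is not larger
    have key : ∀ l r : Sp, (Xv (CT (size l)) z ≤ 5 / 4 → Xv l z ≤ Xv (CT (size l)) z ∧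
          (Xv l z < Xv (CT (size l)) z ∨ H l = H (CT (size l)))) →
        (Xv (CT (size r)) z ≤ 5 / 4 → Xv r z ≤ Xv (CT (size r)) z ∧
          (Xv r z < Xv (CT (size r)) z ∨ H r = H (CT (size r)))) →
        size r ≤ size l → Xv (CT (size (node l r))) z ≤ 5 / 4 →
        Xv (node l r) z ≤ Xv (CT (size (node l r))) z ∧
          (Xv (node l r) z < Xv (CT (size (node l r))) z ∨
            H (node l r) = H (CT (size (node l r)))) := by
      intro l r ihl ihr hle h
      have pl := hpos l
      have pr := hpos r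
      rw [size] at h ⊢
      have dl := CT_dom hz.le pl (by omega : size l ≤ size l + size r) h
      have dr := CT_dom hz.le pr (by omega : size r ≤ size l + size r) h
      obtain ⟨l1, l2⟩ := ihl dl
      obtain ⟨r1, r2⟩ := ihr dr
      have l3 := E_le_of_X_le l1
      have r3 := E_le_of_X_le r1
      have ol := one_lt_E hz l
      have or := one_lt_E hz r
      obtain ⟨e1, e2⟩ := ext_ge (c := fun m => E (CT m) z) (K := size l + size r - 1)
        (fun m => by have := one_lt_E hz (CT m); linarith)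
        (fun m hm hK => CT_conv hz hm (CT_dom hz.le (by omega) (by omega) h))
        (size r) (size l) hle pr (by omega)
      have hX : Xv (CT (size l + size r)) z =
          E (CT (size l + size r - 1)) z * E (CT 1) z := by
        rw [← Xv_CT (size l + size r - 1) (by omega),
          show size l + size r - 1 + 1 = size l + size r by omega]
      rw [hX, Xv_node]
      have e3 : E l z * E r z ≤ E (CT (size l)) z * E (CT (size r)) z := by
        have := one_lt_E hz (CT (size l))
        nlinarith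
      refine ⟨e3.trans e1, ?_⟩
      rcases Nat.lt_or_ge (size r) 2 with hr | hr
      · have hr1 : size r = 1 := by omega
        have hrl : r = leaf := by
          cases r with
          | leaf => rfl
          | node a b =>
            rw [size] at hr1
            have := hpos a
            have := hpos b
            omega
        rcases l2 with l2 | l2
        · left
          have l4 := E_lt_of_X_lt l2 dl
          have e4 : E l z * E r z < E (CT (size l)) z * E (CT (size r)) z := by
            have := one_lt_E hz (CT (size r))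
            nlinarith
          exact lt_of_lt_of_le e4 e1
        · right
          rw [hr1, CT_succ (size l) pl, hrl]
          unfold H
          rw [l2]
      · left
        exact lt_of_le_of_lt e3 (e2 hr)
    rcases Nat.le_total (size r) (size l) with hle | hle
    · exact key l r ihl ihr hle h
    · have hs : size (node l r) = size (node r l) := by rw [size, size, Nat.add_comm]
      have hX : Xv (node l r) z = Xv (node r l) z := by rw [Xv_node, Xv_node, mul_comm]
      rw [hs, hX, H_node_comm]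
      exact key r l ihr ihl hle (by rwa [hs] at h)

/-! ### balanced trees -/

theorem one_le_size (S : Sp) : 1 ≤ size S := by
  induction S with
  | leaf => exact le_refl _
  | node l r ihl ihr => rw [size]; omega

theorem BT_one : BT 1 = leaf := by rw [BT]; rfl

theorem BT_eq {k : ℕ} (hk : 2 ≤ k) : BT k = node (BT (k / 2)) (BT (k - k / 2)) := by
  rw [BT, if_neg (by omega)]

theorem size_BT (k : ℕ) (hk : 1 ≤ k) : size (BT k) = k := by
  induction k using Nat.strong_induction_on with
  | _ k ih =>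
    rcases Nat.lt_or_ge k 2 with h | h
    · obtain rfl : k = 1 := by omega
      rw [BT_one]; rfl
    · rw [BT_eq h, size, ih _ (by omega) (by omega), ih _ (by omega) (by omega)]
      omega

theorem Xv_BT {k : ℕ} (hk : 2 ≤ k) (z : ℝ) :
    Xv (BT k) z = E (BT (k / 2)) z * E (BT (k - k / 2)) z := by
  rw [BT_eq hk, Xv_node]

theorem BT_child {z : ℝ} (hz : 0 ≤ z) {k : ℕ} (hk : 2 ≤ k) (h : Xv (BT k) z ≤ 5 / 4) :
    Xv (BT (k / 2)) z ≤ 5 / 4 ∧ Xv (BT (k - k / 2)) z ≤ 5 / 4 := by
  rw [BT_eq hk] at h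
  exact child hz h

theorem BT_mono {z : ℝ} (hz : 0 < z) (m : ℕ) (hm : 1 ≤ m) (h : Xv (BT (m + 1)) z ≤ 5 / 4) :
    Xv (BT m) z < Xv (BT (m + 1)) z := by
  induction m using Nat.strong_induction_on with
  | _ m ih =>
    rcases Nat.lt_or_ge m 2 with h1 | h1
    · obtain rfl : m = 1 := by omega
      have h2 := (BT_child hz.le (le_refl 2) h).1
      rw [show 2 / 2 = 1 by norm_num] at h2
      have h3 := X_le_E h2
      have h4 := one_lt_E hz (BT 1)
      rw [Xv_BT (le_refl 2)]
      norm_num
      nlinarith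
    · obtain ⟨c1, c2⟩ := BT_child hz.le (by omega : 2 ≤ m + 1) h
      rw [Xv_BT h1, Xv_BT (by omega : 2 ≤ m + 1)]
      rcases Nat.even_or_odd' m with ⟨p, hp | hp⟩
      · have e1 : m / 2 = p := by omega
        have e2 : m - p = p := by omega
        have e3 : (m + 1) / 2 = p := by omega
        have e4 : m + 1 - p = p + 1 := by omega
        rw [e3, e4] at c2
        rw [e1, e2, e3, e4]
        have h5 := E_lt_of_X_lt (ih p (by omega) (by omega) c2) c2
        have h6 := one_lt_E hz (BT p)
        nlinarith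
      · have e1 : m / 2 = p := by omega
        have e2 : m - p = p + 1 := by omega
        have e3 : (m + 1) / 2 = p + 1 := by omega
        have e4 : m + 1 - (p + 1) = p + 1 := by omega
        rw [e3] at c1
        rw [e1, e2, e3, e4]
        have h5 := E_lt_of_X_lt (ih p (by omega) (by omega) c1) c1
        have h6 := one_lt_E hz (BT (p + 1))
        nlinarith

theorem BT_dom {z : ℝ} (hz : 0 < z) {m k : ℕ} (hm : 1 ≤ m) (hmk : m ≤ k)
    (h : Xv (BT k) z ≤ 5 / 4) : Xv (BT m) z ≤ 5 / 4 := by
  induction k, hmk using Nat.le_induction with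
  | base => exact h
  | succ k hk ih => exact ih ((BT_mono hz k (by omega) h).le.trans h)

theorem BT_conv {z : ℝ} (hz : 0 < z) (m : ℕ) (hm : 2 ≤ m) (h : Xv (BT (m + 1)) z ≤ 5 / 4) :
    E (BT m) z ^ 2 < E (BT (m - 1)) z * E (BT (m + 1)) z := by
  induction m using Nat.strong_induction_on with
  | _ m ih =>
    have hX : Xv (BT m) z ≤ 5 / 4 := BT_dom hz (by omega) (by omega) h
    have hX' : Xv (BT (m - 1)) z ≤ 5 / 4 := BT_dom hz (by omega) (by omega) h
    have h1 := E_lt_of_X_lt (BT_mono hz m (by omega) h) h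
    have h1' := BT_mono hz (m - 1) (by omega) (by rwa [show m - 1 + 1 = m by omega])
    rw [show m - 1 + 1 = m by omega] at h1'
    have h1'' := E_lt_of_X_lt h1' hX
    rcases Nat.lt_or_ge m 3 with h3 | h3
    · obtain rfl : m = 2 := by omega
      have h2 := ratio (one_le_E hz.le _) h1
      rw [E_eq (BT 2), E_eq (BT (2 + 1)), phi_G hX, phi_G h, ← E_eq, ← E_eq,
        Xv_BT (le_refl 2), Xv_BT (by omega : 2 ≤ 2 + 1)] at h2
      norm_num at h2 ⊢
      have h4 := one_lt_E hz (BT 1)
      have h5 : (E (BT 2) z ^ 2) * E (BT 1) z < (E (BT 1) z * E (BT 3) z) * E (BT 1) z := by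
        nlinarith
      exact lt_of_mul_lt_mul_right h5 (by linarith)
    · have hE : ∀ j, 0 < E (BT j) z := fun j => by have := one_lt_E hz (BT j); linarith
      have hx : Xv (BT m) z ^ 2 ≤ Xv (BT (m - 1)) z * Xv (BT (m + 1)) z := by
        rw [Xv_BT (by omega : 2 ≤ m), Xv_BT (by omega : 2 ≤ m - 1), Xv_BT (by omega : 2 ≤ m + 1)]
        rcases Nat.even_or_odd' m with ⟨p, hp | hp⟩
        · have e1 : m / 2 = p := by omega
          have e2 : m - p = p := by omega
          have e3 : (m + 1) / 2 = p := by omega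
          have e4 : m + 1 - p = p + 1 := by omega
          have e5 : (m - 1) / 2 = p - 1 := by omega
          have e6 : m - 1 - (p - 1) = p := by omega
          rw [e1, e2, e3, e4, e5, e6]
          have h5 := ih p (by omega) (by omega) (BT_dom hz (by omega) (by omega) h)
          have h6 := hE p
          have h7 : E (BT p) z ^ 2 * E (BT p) z ^ 2 ≤
              E (BT p) z ^ 2 * (E (BT (p - 1)) z * E (BT (p + 1)) z) :=
            mul_le_mul_of_nonneg_left h5.le (by positivity)
          nlinarith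
        · have e1 : m / 2 = p := by omega
          have e2 : m - p = p + 1 := by omega
          have e3 : (m + 1) / 2 = p + 1 := by omega
          have e4 : m + 1 - (p + 1) = p + 1 := by omega
          have e5 : (m - 1) / 2 = p := by omega
          have e6 : m - 1 - p = p := by omega
          rw [e1, e2, e3, e4, e5, e6]
          nlinarith
      apply concave (one_le_E hz.le _) (one_le_E hz.le _) (E_le _ _) (E_le _ _)
        (one_le_E hz.le _) (E_le _ _) (by linarith : E (BT (m - 1)) z < E (BT (m + 1)) z).ne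
      rw [E_eq, E_eq, E_eq, phi_G hX, phi_G hX', phi_G h]
      exact hx

theorem BT_min {z : ℝ} (hz : 0 < z) (S : Sp) (h : Xv S z ≤ 5 / 4) :
    Xv (BT (size S)) z ≤ Xv S z ∧ (Xv (BT (size S)) z < Xv S z ∨ H S = H (BT (size S))) := by
  induction S with
  | leaf =>
    have : BT (size leaf) = leaf := BT_one
    rw [this]
    exact ⟨le_refl _, Or.inr rfl⟩
  | node l r ihl ihr =>
    have key : ∀ l r : Sp, (Xv l z ≤ 5 / 4 → Xv (BT (size l)) z ≤ Xv l z ∧
          (Xv (BT (size l)) z < Xv l z ∨ H l = H (BT (size l)))) →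
        (Xv r z ≤ 5 / 4 → Xv (BT (size r)) z ≤ Xv r z ∧
          (Xv (BT (size r)) z < Xv r z ∨ H r = H (BT (size r)))) →
        size r ≤ size l → Xv (node l r) z ≤ 5 / 4 →
        Xv (BT (size (node l r))) z ≤ Xv (node l r) z ∧
          (Xv (BT (size (node l r))) z < Xv (node l r) z ∨
            H (node l r) = H (BT (size (node l r)))) := by
      intro l r ihl ihr hle h
      have pl := one_le_size l
      have pr := one_le_size r
      obtain ⟨cl, cr⟩ := child hz.le h
      rw [size]
      obtain ⟨l1, l2⟩ := ihl cl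
      obtain ⟨r1, r2⟩ := ihr cr
      have l3 := E_le_of_X_le l1
      have r3 := E_le_of_X_le r1
      have ol := one_lt_E hz (BT (size l))
      have or := one_lt_E hz (BT (size r))
      have dl := l1.trans cl
      obtain ⟨e1, e2⟩ := half_le (c := fun m => E (BT m) z) (K := size l)
        (fun m => by have := one_lt_E hz (BT m); linarith)
        (fun m hm hK => BT_conv hz m hm (BT_dom hz (by omega) hK dl))
        (size l - size r) (size l) (size r) (by omega) pr (le_refl _)
      rw [Xv_BT (by omega : 2 ≤ size l + size r), Xv_node]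
      have e3 : E (BT (size l)) z * E (BT (size r)) z ≤ E l z * E r z := by nlinarith
      refine ⟨e1.trans e3, ?_⟩
      rcases Nat.lt_or_ge (size l - size r) 2 with hd | hd
      · have q1 : (size l + size r) / 2 = size r := by omega
        have q2 : size l + size r - size r = size l := by omega
        rcases l2 with l2 | l2
        · left
          have l4 := E_lt_of_X_lt l2 cl
          exact lt_of_le_of_lt e1 (by nlinarith)
        rcases r2 with r2 | r2
        · left
          have r4 := E_lt_of_X_lt r2 cr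
          exact lt_of_le_of_lt e1 (by nlinarith)
        · right
          rw [BT_eq (by omega : 2 ≤ size l + size r), q1, q2, H_node_comm (BT (size r))]
          unfold H
          rw [← l2, ← r2]
      · left
        exact lt_of_lt_of_le (e2 hd) e3
    rcases Nat.le_total (size r) (size l) with hle | hle
    · exact key l r ihl ihr hle h
    · have hs : size (node l r) = size (node r l) := by rw [size, size, Nat.add_comm]
      have hX : Xv (node l r) z = Xv (node r l) z := by rw [Xv_node, Xv_node, mul_comm]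
      rw [hs, hX, H_node_comm]
      exact key r l ihr ihl hle (by rwa [hX] at h)

/-! ### convergence -/

theorem pairs_le {F : ℕ × ℕ → ℝ} {M : ℕ} (s : Finset (ℕ × ℕ)) (hF : ∀ p, 0 ≤ F p)
    (h0 : ∀ n < M, ∀ p ∈ antidiagonal n, p ∉ s → F p = 0) :
    ∑ n ∈ range M, ∑ p ∈ antidiagonal n, F p ≤ ∑ p ∈ s, F p := by
  classical
  have h1 : ∑ n ∈ range M, ∑ p ∈ antidiagonal n, F p =
      ∑ n ∈ range M, ∑ p ∈ (s.filter (fun p => p.1 + p.2 < M)).filter (fun p => p.1 + p.2 = n),
        F p := by
    refine sum_congr rfl (fun n hn => ?_)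
    rw [mem_range] at hn
    symm
    apply sum_subset
    · intro p hp
      rw [mem_filter, mem_filter] at hp
      rw [HasAntidiagonal.mem_antidiagonal]
      exact hp.2
    · intro p hp hp'
      apply h0 n hn p hp
      intro hps
      apply hp'
      rw [HasAntidiagonal.mem_antidiagonal] at hp
      rw [mem_filter, mem_filter]
      exact ⟨⟨hps, by omega⟩, hp⟩
  rw [h1, sum_fiberwise_of_maps_to (g := fun p : ℕ × ℕ => p.1 + p.2)]
  · exact sum_le_sum_of_subset_of_nonneg (filter_subset _ _) (fun p _ _ => hF p)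
  · intro p hp
    rw [mem_filter] at hp
    rw [mem_range]
    exact hp.2

theorem pairs_le_mul {a b : ℕ → ℝ} (ha : ∀ n, 0 ≤ a n) (hb : ∀ n, 0 ≤ b n) (N : ℕ) :
    ∑ n ∈ range N, ∑ p ∈ antidiagonal n, a p.1 * b p.2 ≤
      (∑ n ∈ range N, a n) * ∑ n ∈ range N, b n := by
  rw [sum_mul_sum, ← sum_product']
  apply pairs_le (F := fun p : ℕ × ℕ => a p.1 * b p.2) _ (fun p => mul_nonneg (ha _) (hb _))
  intro n hn p hp hps
  exfalso
  apply hps
  rw [HasAntidiagonal.mem_antidiagonal] at hp
  rw [mem_product, mem_range, mem_range]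
  omega

theorem pairs_le_sq {a : ℕ → ℝ} (ha : ∀ n, 0 ≤ a n) (h0 : a 0 = 0) (N : ℕ) :
    ∑ n ∈ range (N + 1), ∑ p ∈ antidiagonal n, a p.1 * a p.2 ≤ (∑ n ∈ range N, a n) ^ 2 := by
  rw [sq, sum_mul_sum, ← sum_product']
  apply pairs_le (F := fun p : ℕ × ℕ => a p.1 * a p.2) _ (fun p => mul_nonneg (ha _) (ha _))
  intro n hn p hp hps
  rw [HasAntidiagonal.mem_antidiagonal] at hp
  rw [mem_product, mem_range, mem_range] at hps
  have : p.1 = 0 ∨ p.2 = 0 := by omega
  rcases this with h | h
  · rw [h, h0, zero_mul]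
  · rw [h, h0, mul_zero]

/-- the terms of the series at `z` -/
noncomputable def a (S : Sp) (z : ℝ) (n : ℕ) : ℝ := h S n * z ^ n

theorem a_nonneg (S : Sp) {z : ℝ} (hz : 0 ≤ z) (n : ℕ) : 0 ≤ a S z n :=
  mul_nonneg (h_nonneg S n) (by positivity)

theorem a_zero (S : Sp) (z : ℝ) : a S z 0 = 0 := by
  unfold a; rw [h_zero, zero_mul]

theorem sum_anti (S T : Sp) (z : ℝ) (n : ℕ) :
    (∑ p ∈ antidiagonal n, h S p.1 * h T p.2) * z ^ n = ∑ p ∈ antidiagonal n, a S z p.1 * a T z p.2 := by
  rw [sum_mul]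
  refine sum_congr rfl (fun p hp => ?_)
  rw [HasAntidiagonal.mem_antidiagonal] at hp
  unfold a
  rw [← hp, pow_add]
  ring

theorem a_rec (S : Sp) (z : ℝ) (n : ℕ) :
    a S z n = w S n * z ^ n + ∑ p ∈ antidiagonal n, a S z p.1 * a S z p.2 := by
  rw [← sum_anti, ← add_mul, ← h_rec]
  rfl

theorem w_node (l r : Sp) (z : ℝ) (n : ℕ) : w (node l r) n * z ^ n =
    ∑ p ∈ antidiagonal n, a l z p.1 * a r z p.2 + a l z n + a r z n := by
  rw [← sum_anti]
  simp only [w, a]
  ring

theorem w_leaf (z : ℝ) (n : ℕ) : w leaf n * z ^ n = if n = 1 then z else 0 := by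
  simp only [w]
  split_ifs with h
  · rw [h]; ring
  · ring

theorem partial_le_of {S : Sp} {z : ℝ} (hz : 0 ≤ z) (hX : Xv S z ≤ 5 / 4)
    (hw : ∀ N, ∑ n ∈ range N, w S n * z ^ n ≤ Xv S z - 1) (N : ℕ) :
    ∑ n ∈ range N, a S z n ≤ E S z - 1 := by
  induction N with
  | zero => rw [sum_range_zero]; linarith [one_le_E hz S]
  | succ N ih =>
    have h1 : ∑ n ∈ range (N + 1), a S z n = ∑ n ∈ range (N + 1), w S n * z ^ n +
        ∑ n ∈ range (N + 1), ∑ p ∈ antidiagonal n, a S z p.1 * a S z p.2 := by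
      rw [← sum_add_distrib]
      exact sum_congr rfl (fun n _ => a_rec S z n)
    have h2 := pairs_le_sq (a_nonneg S hz) (a_zero S z) N
    have h3 : 0 ≤ ∑ n ∈ range N, a S z n := sum_nonneg (fun n _ => a_nonneg S hz n)
    have h4 := hw (N + 1)
    have h5 : phi (E S z) = Xv S z := by rw [E_eq]; exact phi_G hX
    unfold phi at h5
    rw [h1]
    nlinarith

theorem partial_le (S : Sp) {z : ℝ} (hz : 0 ≤ z) (hX : Xv S z ≤ 5 / 4) :
    ∀ N, ∑ n ∈ range N, a S z n ≤ E S z - 1 := by
  induction S with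
  | leaf =>
    apply partial_le_of hz hX
    intro N
    rw [Xv_leaf]
    simp only [w_leaf]
    rw [sum_ite_eq']
    split_ifs <;> linarith
  | node l r ihl ihr =>
    obtain ⟨cl, cr⟩ := child hz hX
    apply partial_le_of hz hX
    intro N
    rw [Xv_node]
    simp only [w_node]
    rw [sum_add_distrib, sum_add_distrib]
    have h1 := pairs_le_mul (a_nonneg l hz) (a_nonneg r hz) N
    have h2 := ihl cl N
    have h3 := ihr cr N
    have h4 : 0 ≤ ∑ n ∈ range N, a l z n := sum_nonneg (fun n _ => a_nonneg l hz n)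
    have h5 : 0 ≤ ∑ n ∈ range N, a r z n := sum_nonneg (fun n _ => a_nonneg r hz n)
    nlinarith

theorem summable_of (S : Sp) {z : ℝ} (hz : 0 ≤ z) (hX : Xv S z ≤ 5 / 4) : Summable (a S z) :=
  summable_of_sum_range_le (a_nonneg S hz) (partial_le S hz hX)

theorem of_summable (S : Sp) {z : ℝ} (hz : 0 ≤ z) (h : Summable (a S z)) :
    Xv S z ≤ 5 / 4 ∧ E S z ≤ 1 + ∑' n, a S z n := by
  -- from the sum `ω` of `W`
  have key : ∀ S : Sp, Summable (a S z) → ∀ ω, HasSum (fun n => w S n * z ^ n) ω →
      Xv S z ≤ 1 + ω → Xv S z ≤ 5 / 4 ∧ E S z ≤ 1 + ∑' n, a S z n := by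
    intro S h ω hω hX
    have hn : Summable (fun n => ‖a S z n‖) := by
      simpa [Real.norm_of_nonneg (a_nonneg S hz _)] using h
    have h1 := tsum_mul_tsum_eq_tsum_sum_antidiagonal_of_summable_norm hn hn
    have h2 : Summable (fun n => ∑ p ∈ antidiagonal n, a S z p.1 * a S z p.2) := by
      have := summable_norm_sum_mul_antidiagonal_of_summable_norm hn hn
      exact this.of_norm
    have h3 : ∑' n, a S z n = ω + ∑' n, ∑ p ∈ antidiagonal n, a S z p.1 * a S z p.2 := by
      rw [← hω.tsum_eq, ← hω.summable.tsum_add h2]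
      exact tsum_congr (fun n => a_rec S z n)
    rw [← h1] at h3
    set T := ∑' n, a S z n with hT
    have h4 : 1 + ω = phi (1 + T) := by unfold phi; linarith
    rw [h4] at hX
    exact ⟨hX.trans (phi_le _), by rw [E_eq]; exact G_le_of hX⟩
  induction S with
  | leaf =>
    apply key leaf h z
    · simp only [w_leaf]
      exact hasSum_ite_eq 1 z
    · rw [Xv_leaf]
  | node l r ihl ihr =>
    have hle : ∀ n, a l z n ≤ a (node l r) z n ∧ a r z n ≤ a (node l r) z n := by
      intro n
      have h1 := a_rec (node l r) z n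
      rw [w_node] at h1
      have h2 : 0 ≤ ∑ p ∈ antidiagonal n, a l z p.1 * a r z p.2 :=
        sum_nonneg (fun p _ => mul_nonneg (a_nonneg _ hz _) (a_nonneg _ hz _))
      have h3 : 0 ≤ ∑ p ∈ antidiagonal n, a (node l r) z p.1 * a (node l r) z p.2 :=
        sum_nonneg (fun p _ => mul_nonneg (a_nonneg _ hz _) (a_nonneg _ hz _))
      have h4 := a_nonneg l hz n
      have h5 := a_nonneg r hz n
      constructor <;> linarith
    have sl : Summable (a l z) := Summable.of_nonneg_of_le (a_nonneg l hz) (fun n => (hle n).1) h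
    have sr : Summable (a r z) := Summable.of_nonneg_of_le (a_nonneg r hz) (fun n => (hle n).2) h
    have nl : Summable (fun n => ‖a l z n‖) := by
      simpa [Real.norm_of_nonneg (a_nonneg l hz _)] using sl
    have nr : Summable (fun n => ‖a r z n‖) := by
      simpa [Real.norm_of_nonneg (a_nonneg r hz _)] using sr
    have h1 := tsum_mul_tsum_eq_tsum_sum_antidiagonal_of_summable_norm nl nr
    have h2 : Summable (fun n => ∑ p ∈ antidiagonal n, a l z p.1 * a r z p.2) := by
      have := summable_norm_sum_mul_antidiagonal_of_summable_norm nl nr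
      exact this.of_norm
    obtain ⟨l1, l2⟩ := ihl sl
    obtain ⟨r1, r2⟩ := ihr sr
    apply key (node l r) h ((∑' n, a l z n) * (∑' n, a r z n) + ∑' n, a l z n + ∑' n, a r z n)
    · simp only [w_node]
      rw [h1]
      exact (h2.hasSum.add sl.hasSum).add sr.hasSum
    · rw [Xv_node]
      have el := one_le_E hz l
      have er := one_le_E hz r
      nlinarith

/-! ### the radius of convergence -/

theorem continuous_E (S : Sp) : Continuous (E S) ∧ Continuous (Xv S) := by
  have hG : Continuous G := by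
    unfold G
    fun_prop
  induction S with
  | leaf =>
    have h1 : Continuous (Xv leaf) := by
      show Continuous (fun z : ℝ => 1 + z)
      fun_prop
    refine ⟨?_, h1⟩
    have : E leaf = fun z => G (Xv leaf z) := by funext z; exact E_eq _ _
    rw [this]
    exact hG.comp h1
  | node l r ihl ihr =>
    have h1 : Continuous (Xv (node l r)) := by
      show Continuous (fun z : ℝ => E l z * E r z)
      exact ihl.1.mul ihr.1
    refine ⟨?_, h1⟩
    have : E (node l r) = fun z => G (Xv (node l r) z) := by funext z; exact E_eq _ _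
    rw [this]
    exact hG.comp h1

theorem XE_zero (S : Sp) : Xv S 0 = 1 := by
  have : Xv S 0 = 1 ∧ E S 0 = 1 := by
    induction S with
    | leaf =>
      have h1 : Xv leaf 0 = 1 := by rw [Xv_leaf]; norm_num
      exact ⟨h1, by rw [E_eq, h1, G_one]⟩
    | node l r ihl ihr =>
      have h1 : Xv (node l r) 0 = 1 := by rw [Xv_node, ihl.2, ihr.2]; norm_num
      exact ⟨h1, by rw [E_eq, h1, G_one]⟩
  exact this.1

theorem one_add_le {z : ℝ} (hz : 0 ≤ z) (hz' : z ≤ 1 / 4) (S : Sp) :
    1 + z ≤ Xv S z ∧ 1 + z ≤ E S z := by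
  have key : ∀ x, 1 + z ≤ x → 1 + z ≤ G x := fun x hx => (le_G (by linarith)).trans (G_mono hx)
  induction S with
  | leaf =>
    have h1 : 1 + z ≤ Xv leaf z := le_of_eq (Xv_leaf z).symm
    exact ⟨h1, by rw [E_eq]; exact key _ h1⟩
  | node l r ihl ihr =>
    have h1 : 1 + z ≤ Xv (node l r) z := by
      rw [Xv_node]
      have := one_le_E hz l
      have := ihr.2
      nlinarith
    exact ⟨h1, by rw [E_eq]; exact key _ h1⟩

theorem exists_rho (S : Sp) : ∃ ρ : ℝ, 0 < ρ ∧ ρ ≤ 1 / 4 ∧ Xv S ρ = 5 / 4 := by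
  have h1 : (5 / 4 : ℝ) ∈ Set.Icc (Xv S 0) (Xv S (1 / 4)) := by
    rw [XE_zero]
    have := (one_add_le (by norm_num : (0 : ℝ) ≤ 1 / 4) (le_refl _) S).1
    exact ⟨by norm_num, by linarith⟩
  obtain ⟨ρ, hρ, h2⟩ := intermediate_value_Icc (by norm_num : (0 : ℝ) ≤ 1 / 4)
    (continuous_E S).2.continuousOn h1
  refine ⟨ρ, lt_of_le_of_ne hρ.1 ?_, hρ.2, h2⟩
  rintro rfl
  rw [XE_zero] at h2
  norm_num at h2

/-- the growth factor is the reciprocal of the radius of convergence -/
theorem growth (S : Sp) {ρ : ℝ} (hρ : 0 < ρ) (hX : Xv S ρ = 5 / 4) :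
    Tendsto (fun n : ℕ => (h S n) ^ (1 / (n : ℝ))) atTop (𝓝 (1 / ρ)) := by
  -- Fekete
  set u : ℕ → ℝ := fun n => - Real.log (h S n) with hu
  have hsub : Subadditive u := by
    intro m n
    rcases Nat.eq_zero_or_pos m with hm | hm
    · rw [hm, zero_add]
      simp [hu, h_zero]
    rcases Nat.eq_zero_or_pos n with hn | hn
    · rw [hn, add_zero]
      simp [hu, h_zero]
    simp only [hu]
    have h1 := Real.log_le_log (mul_pos (h_pos S hm) (h_pos S hn)) (h_super S m n)
    rw [Real.log_mul (h_pos S hm).ne' (h_pos S hn).ne'] at h1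
    linarith
  have hle : ∀ n, h S n * ρ ^ n ≤ 1 := by
    intro n
    have h1 := partial_le S hρ.le hX.le (n + 1)
    have h2 : a S ρ n ≤ ∑ m ∈ range (n + 1), a S ρ m :=
      single_le_sum (fun m _ => a_nonneg S hρ.le m) (by rw [mem_range]; omega)
    have h3 := E_le S ρ
    unfold a at h2 h1
    linarith
  have hlog : ∀ n : ℕ, 1 ≤ n → (n : ℝ) * Real.log ρ ≤ u n := by
    intro n hn
    have h1 := Real.log_le_log (mul_pos (h_pos S hn) (by positivity)) (hle n)
    rw [Real.log_mul (h_pos S hn).ne' (by positivity), Real.log_one, Real.log_pow] at h1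
    simp only [hu]
    linarith
  have hbdd : BddBelow (Set.range fun n => u n / n) := by
    refine ⟨min (Real.log ρ) 0, ?_⟩
    rintro x ⟨n, rfl⟩
    simp only
    rcases Nat.eq_zero_or_pos n with hn | hn
    · rw [hn]; simp
    · refine (min_le_left _ _).trans ?_
      have hn' : (0 : ℝ) < n := by exact_mod_cast hn
      rw [le_div_iff₀ hn']
      have := hlog n hn
      linarith
  have hlim := hsub.tendsto_lim hbdd
  set L := hsub.lim with hL
  have hlow : ∀ n : ℕ, 1 ≤ n → h S n ≤ Real.exp (-L) ^ n := by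
    intro n hn
    have h1 := hsub.lim_le_div hbdd (show n ≠ 0 by omega)
    have hn' : (0 : ℝ) < n := by exact_mod_cast hn
    rw [le_div_iff₀ hn'] at h1
    simp only [hu] at h1
    rw [← Real.exp_nat_mul, ← Real.log_le_iff_le_exp (h_pos S hn)]
    linarith
  have hα : Tendsto (fun n : ℕ => (h S n) ^ (1 / (n : ℝ))) atTop (𝓝 (Real.exp (-L))) := by
    have h1 : Tendsto (fun n : ℕ => Real.exp (-(u n / n))) atTop (𝓝 (Real.exp (-L))) :=
      (Real.continuous_exp.tendsto _).comp hlim.neg
    refine h1.congr' ?_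
    filter_upwards [eventually_ge_atTop 1] with n hn
    rw [Real.rpow_def_of_pos (h_pos S hn)]
    congr 1
    simp only [hu]
    ring
  have e : Real.exp (-L) = 1 / ρ := by
    apply le_antisymm
    · apply le_of_tendsto hα
      filter_upwards [eventually_ge_atTop 1] with n hn
      have h1 : h S n ≤ (1 / ρ) ^ n := by
        have := hle n
        rw [one_div, inv_pow, ← one_div, le_div_iff₀ (by positivity)]
        exact this
      have h2 := Real.rpow_le_rpow (h_nonneg S n) h1 (show 0 ≤ 1 / (n : ℝ) by positivity)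
      refine h2.trans (le_of_eq ?_)
      rw [← Real.rpow_natCast, ← Real.rpow_mul (by positivity), mul_one_div_cancel, Real.rpow_one]
      have : (0 : ℝ) < n := by exact_mod_cast hn
      exact this.ne'
    · by_contra hc
      push Not at hc
      set α := Real.exp (-L) with hαd
      have hα0 : 0 < α := Real.exp_pos _
      have h1 : ρ < 1 / α := by
        rw [lt_div_iff₀ hρ] at hc
        rw [lt_div_iff₀ hα0]
        linarith
      obtain ⟨z, hz1, hz2⟩ := exists_between h1
      have hz0 : 0 < z := hρ.trans hz1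
      have hαz : α * z < 1 := by
        rw [lt_div_iff₀ hα0] at hz2
        linarith
      have hs : Summable (a S z) := by
        apply Summable.of_nonneg_of_le (a_nonneg S hz0.le) (f := fun n => (α * z) ^ n) ?_
          (summable_geometric_of_lt_one (by positivity) hαz)
        intro n
        rcases Nat.eq_zero_or_pos n with hn | hn
        · rw [hn, a_zero]; positivity
        · unfold a
          rw [mul_pow]
          exact mul_le_mul_of_nonneg_right (hlow n hn) (by positivity)
      have h2 := (of_summable S hz0.le hs).1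
      have h3 := X_strict hρ.le hz1 S h2
      linarith
  rwa [e] at hα

theorem alpha_eq (S : Sp) {ρ : ℝ} (hρ : 0 < ρ) (hX : Xv S ρ = 5 / 4) : alpha S = 1 / ρ :=
  (growth S hρ hX).limUnder_eq

theorem tendsto_alpha (S : Sp) :
    Tendsto (fun n : ℕ => (h S n) ^ (1 / (n : ℝ))) atTop (𝓝 (alpha S)) := by
  obtain ⟨ρ, hρ, _, hX⟩ := exists_rho S
  rw [alpha_eq S hρ hX]
  exact growth S hρ hX

theorem eventually_le {S T : Sp} (hST : alpha S < alpha T) : ∀ᶠ n in atTop, h S n ≤ h T n := by
  obtain ⟨m, h1, h2⟩ := exists_between hST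
  filter_upwards [(tendsto_alpha S).eventually_lt_const h1,
    (tendsto_alpha T).eventually_const_lt h2, eventually_ge_atTop 1] with n hS hT hn
  have hn0 : (0 : ℝ) < 1 / (n : ℝ) := by
    have : (0 : ℝ) < n := by exact_mod_cast hn
    positivity
  have h3 : (h S n) ^ (1 / (n : ℝ)) < (h T n) ^ (1 / (n : ℝ)) := hS.trans hT
  exact ((Real.rpow_lt_rpow_iff (h_nonneg S n) (h_nonneg T n) hn0).1 h3).le

theorem eventually_ct (S : Sp) : ∀ᶠ n in atTop, h S n ≤ h (CT (size S)) n := by
  obtain ⟨ρ, hρ, _, hX⟩ := exists_rho (CT (size S))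
  rcases (CT_max hρ S hX.le).2 with h1 | h1
  · apply eventually_le
    obtain ⟨ρ', hρ', _, hX'⟩ := exists_rho S
    rw [alpha_eq _ hρ hX, alpha_eq _ hρ' hX']
    apply one_div_lt_one_div_of_lt hρ
    by_contra hc
    push Not at hc
    have := X_mono hρ'.le hc S
    linarith
  · refine Eventually.of_forall (fun n => ?_)
    unfold h
    rw [h1]

theorem eventually_bt (S : Sp) : ∀ᶠ n in atTop, h (BT (size S)) n ≤ h S n := by
  obtain ⟨ρ, hρ, _, hX⟩ := exists_rho S
  rcases (BT_min hρ S hX.le).2 with h1 | h1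
  · apply eventually_le
    obtain ⟨ρ', hρ', _, hX'⟩ := exists_rho (BT (size S))
    rw [alpha_eq _ hρ hX, alpha_eq _ hρ' hX']
    apply one_div_lt_one_div_of_lt hρ
    by_contra hc
    push Not at hc
    have := X_mono hρ'.le hc (BT (size S))
    linarith
  · refine Eventually.of_forall (fun n => ?_)
    unfold h
    rw [h1]

theorem finite_size (k : ℕ) : {S : Sp | size S = k}.Finite := by
  induction k using Nat.strong_induction_on with
  | _ k ih =>
    have h1 : {S : Sp | size S = k} ⊆
        {leaf} ∪ ⋃ i ∈ Set.Iio k, Set.image2 node {S | size S = i} {S | size S = k - i} := by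
      intro S hS
      cases S with
      | leaf => left; rfl
      | node l r =>
        right
        have hS' : size l + size r = k := hS
        have := one_le_size l
        have := one_le_size r
        rw [Set.mem_iUnion₂]
        exact ⟨size l, by rw [Set.mem_Iio]; omega, Set.mem_image2_of_mem rfl (by
          show size r = k - size l
          omega)⟩
    apply Set.Finite.subset _ h1
    apply Set.Finite.union (Set.finite_singleton _)
    apply Set.Finite.biUnion (Set.finite_Iio k)
    intro i hi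
    rw [Set.mem_Iio] at hi
    rcases Nat.eq_zero_or_pos i with h0 | h0
    · subst h0
      have : {S : Sp | size S = 0} = ∅ := by
        ext S
        have := one_le_size S
        constructor
        · intro h
          have h' : size S = 0 := h
          omega
        · intro h; exact absurd h (Set.notMem_empty _)
      rw [this, Set.image2_empty_left]
      exact Set.finite_empty
    · exact Set.Finite.image2 _ (ih i hi) (ih (k - i) (by omega))

/-! ### growth in `k` -/

theorem four_mul_le (S : Sp) : 4 * (size S : ℝ) ≤ alpha S := by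
  obtain ⟨ρ, hρ, _, hX⟩ := exists_rho S
  rw [alpha_eq S hρ hX, le_div_iff₀ hρ]
  have key : ∀ T : Sp, Xv T ρ ≤ 5 / 4 → (1 + ρ) ^ (size T) ≤ Xv T ρ := by
    intro T
    induction T with
    | leaf => intro _; rw [size, pow_one, Xv_leaf]
    | node l r ihl ihr =>
      intro hT
      obtain ⟨cl, cr⟩ := child hρ.le hT
      rw [size, pow_add, Xv_node]
      have h1 := (ihl cl).trans (X_le_E cl)
      have h2 := (ihr cr).trans (X_le_E cr)
      have h3 : 0 ≤ (1 + ρ) ^ size l := by positivity
      have h4 : 0 ≤ (1 + ρ) ^ size r := by positivity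
      nlinarith
  have h1 := key S hX.le
  have h2 := one_add_mul_le_pow (show (-2 : ℝ) ≤ ρ by linarith) (size S)
  rw [hX] at h1
  linarith

theorem BT_ineq {s t : ℝ} (hs0 : 0 < s) (ht0 : 0 < t) (hx15 : s + t ≤ 1 / 15)
    (hsq : s ^ 2 + t ^ 2 ≤ 5 / 9 * (s + t) ^ 2) :
    (1 + (s + 5 * s ^ 2)) * (1 + (t + 5 * t ^ 2)) ≤ phi (1 + ((s + t) + 5 * (s + t) ^ 2)) := by
  have b1 : (s + 5 * s ^ 2) * (t + 5 * t ^ 2) ≤ (s + t) ^ 2 / 4 * (16 / 9) := by
    have c1 : (s + 5 * s ^ 2) * (t + 5 * t ^ 2) = s * t * ((1 + 5 * s) * (1 + 5 * t)) := by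
      ring
    have c2 : s * t ≤ (s + t) ^ 2 / 4 := by nlinarith [sq_nonneg (s - t)]
    have c3 : (1 + 5 * s) * (1 + 5 * t) ≤ 4 / 3 * (4 / 3) :=
      mul_le_mul (by linarith) (by linarith) (by positivity) (by norm_num)
    rw [c1]
    exact mul_le_mul c2 (c3.trans (by norm_num)) (by positivity) (by positivity)
  have b2 : ((s + t) + 5 * (s + t) ^ 2) ^ 2 ≤ (s + t) ^ 2 * (16 / 9) := by
    have c1 : ((s + t) + 5 * (s + t) ^ 2) ^ 2 = (s + t) ^ 2 * (1 + 5 * (s + t)) ^ 2 := by ring
    rw [c1]
    apply mul_le_mul_of_nonneg_left _ (sq_nonneg _)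
    have : (1 + 5 * (s + t)) ^ 2 ≤ (4 / 3) ^ 2 :=
      pow_le_pow_left₀ (by positivity) (by linarith) 2
    linarith
  have e1 : (1 + (s + 5 * s ^ 2)) * (1 + (t + 5 * t ^ 2)) =
      1 + (s + t) + 5 * (s ^ 2 + t ^ 2) + (s + 5 * s ^ 2) * (t + 5 * t ^ 2) := by ring
  have e2 : phi (1 + ((s + t) + 5 * (s + t) ^ 2)) =
      1 + (s + t) + 5 * (s + t) ^ 2 - ((s + t) + 5 * (s + t) ^ 2) ^ 2 := by
    unfold phi; ring
  rw [e1, e2]
  linarith

theorem alpha_BT_le {k : ℕ} (hk : 1 ≤ k) : alpha (BT k) ≤ 15 * k := by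
  obtain ⟨ρ, hρ, _, hX⟩ := exists_rho (BT k)
  rw [alpha_eq _ hρ hX, div_le_iff₀ hρ]
  have hk0 : (0 : ℝ) < k := by exact_mod_cast hk
  set z : ℝ := 1 / (15 * k) with hz
  have hz0 : 0 < z := by positivity
  have hkz : (k : ℝ) * z = 1 / 15 := by rw [hz]; field_simp
  have key : ∀ m : ℕ, 1 ≤ m → m ≤ k →
      Xv (BT m) z ≤ phi (1 + (m * z + 5 * (m * z) ^ 2)) := by
    intro m
    induction m using Nat.strong_induction_on with
    | _ m ih =>
      intro hm hmk
      have hmk' : (m : ℝ) ≤ k := by exact_mod_cast hmk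
      have ht : (m : ℝ) * z ≤ 1 / 15 := by rw [← hkz]; nlinarith
      have hm0 : (0 : ℝ) < m := by exact_mod_cast hm
      have ht0 : 0 < (m : ℝ) * z := by positivity
      rcases Nat.lt_or_ge m 2 with h1 | h1
      · obtain rfl : m = 1 := by omega
        rw [BT_one, Xv_leaf]
        unfold phi
        push_cast at ht ⊢
        set t := (1 : ℝ) * z with hte
        have : z = t := by rw [hte]; ring
        rw [this]
        nlinarith [mul_pos hz0 hz0, sq_nonneg (t * t)]
      · obtain ⟨p, q, hp, hq, hpq, hp1, hq1, hpq1, hpq2⟩ : ∃ p q, m / 2 = p ∧ m - m / 2 = q ∧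
            p + q = m ∧ 1 ≤ p ∧ 1 ≤ q ∧ p ≤ q ∧ q ≤ p + 1 :=
          ⟨m / 2, m - m / 2, rfl, rfl, by omega, by omega, by omega, by omega, by omega⟩
        have i1 := G_le_of (ih p (by omega) hp1 (by omega))
        have i2 := G_le_of (ih q (by omega) hq1 (by omega))
        rw [← E_eq] at i1 i2
        rw [Xv_BT h1, hq, hp]
        have hpqm : (m : ℝ) = p + q := by exact_mod_cast hpq.symm
        have hp0 : (1 : ℝ) ≤ p := by exact_mod_cast hp1
        have hq0 : (1 : ℝ) ≤ q := by exact_mod_cast hq1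
        -- `p² + q² ≤ (5/9) m²`
        have hsq : (p : ℝ) ^ 2 + q ^ 2 ≤ 5 / 9 * m ^ 2 := by
          rcases Nat.lt_or_ge p q with h2 | h2
          · have : (q : ℝ) = p + 1 := by
              have : q = p + 1 := by omega
              exact_mod_cast this
            rw [hpqm, this]; nlinarith
          · have : (q : ℝ) = p := by
              have : q = p := by omega
              exact_mod_cast this
            rw [hpqm, this]; nlinarith
        set s := (p : ℝ) * z with hs
        set t := (q : ℝ) * z with ht'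
        have hst : (m : ℝ) * z = s + t := by rw [hpqm, hs, ht']; ring
        rw [hst] at ht ht0 ⊢
        have hs0 : 0 < s := by positivity
        have ht00 : 0 < t := by positivity
        have hsq' : s ^ 2 + t ^ 2 ≤ 5 / 9 * (s + t) ^ 2 := by
          have e1 : s ^ 2 + t ^ 2 = ((p : ℝ) ^ 2 + q ^ 2) * z ^ 2 := by rw [hs, ht']; ring
          have e2 : (s + t) ^ 2 = (m : ℝ) ^ 2 * z ^ 2 := by rw [← hst]; ring
          rw [e1, e2]
          have := mul_le_mul_of_nonneg_right hsq (sq_nonneg z)
          linarith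
        have a1 : 0 ≤ E (BT p) z := by linarith [one_le_E hz0.le (BT p)]
        have i3 : E (BT p) z * E (BT q) z ≤ (1 + (s + 5 * s ^ 2)) * (1 + (t + 5 * t ^ 2)) :=
          mul_le_mul i1 i2 (by linarith [one_le_E hz0.le (BT q)]) (by positivity)
        refine i3.trans ?_
        exact BT_ineq hs0 ht00 ht hsq'
  have h1 := (key k hk (le_refl _)).trans (phi_le _)
  have h2 : z ≤ ρ := by
    by_contra hc
    push Not at hc
    have := X_strict hρ.le hc _ h1
    linarith
  have h3 : (1 : ℝ) = 15 * (k * z) := by rw [hkz]; norm_num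
  nlinarith

theorem le_alpha_CT {k : ℕ} (_hk : 1 ≤ k) : (k : ℝ) ^ 2 / 9 ≤ alpha (CT k) := by
  obtain ⟨ρ, hρ, hρ4, hX⟩ := exists_rho (CT k)
  rw [alpha_eq _ hρ hX, le_div_iff₀ hρ]
  set s := Real.sqrt ρ with hs
  have hs0 : 0 < s := Real.sqrt_pos.2 hρ
  have hss : s ^ 2 = ρ := Real.sq_sqrt hρ.le
  have hs2 : s ≤ 1 / 2 := by nlinarith
  -- the recursion for `b m = E (CT m) ρ - 1`
  set b : ℕ → ℝ := fun m => E (CT m) ρ - 1 with hb
  have hb0 : ∀ m, 0 < b m := fun m => by simp only [hb]; linarith [one_lt_E hρ (CT m)]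
  have hbh : ∀ m, b m ≤ 1 / 2 := fun m => by simp only [hb]; linarith [E_le (CT m) ρ]
  have hb1 : ρ ≤ b 1 := by
    simp only [hb]
    have h1 := (one_add_le hρ.le hρ4 (CT 1)).2
    linarith
  have hrec : ∀ m, 1 ≤ m → m + 1 ≤ k → b m + ρ + b m ^ 2 ≤ b (m + 1) := by
    intro m hm hmk
    have d1 := CT_dom hρ.le (by omega : 1 ≤ m + 1) hmk hX.le
    have d2 := CT_mono hρ hm d1
    have d3 := E_lt_of_X_lt d2 d1
    have d4 : phi (E (CT (m + 1)) ρ) = Xv (CT (m + 1)) ρ := by rw [E_eq]; exact phi_G d1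
    rw [Xv_CT m hm] at d4
    unfold phi at d4
    have e1 : E (CT m) ρ = b m + 1 := by simp only [hb]; ring
    have e2 : E (CT (m + 1)) ρ = b (m + 1) + 1 := by simp only [hb]; ring
    have e3 : E (CT 1) ρ = b 1 + 1 := by simp only [hb]; ring
    rw [e1, e2, e3] at d4
    rw [e1, e2] at d3
    have p1 := hb0 m
    have p2 := hb0 1
    nlinarith
  have hlin : ∀ m, 1 ≤ m → m ≤ k → (m : ℝ) * ρ ≤ b m := by
    intro m hm
    induction m, hm using Nat.le_induction with
    | base => intro _; simpa using hb1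
    | succ m hm ih =>
      intro hmk
      have h1 := ih (by omega)
      have h2 := hrec m hm hmk
      push_cast
      nlinarith [sq_nonneg (b m)]
  set p := ⌈1 / s⌉₊ with hp
  have hp1 : 1 / s ≤ p := Nat.le_ceil _
  have hp2 : (p : ℝ) < 1 / s + 1 := Nat.ceil_lt_add_one (by positivity)
  have hpos : 1 ≤ p := by
    rw [hp, Nat.one_le_ceil_iff]; positivity
  have hfin : (k : ℝ) * s ≤ 3 := by
    rcases Nat.lt_or_ge k p with h1 | h1
    · have h2 : (k : ℝ) ≤ p := by exact_mod_cast h1.le
      have h3 : (k : ℝ) * s ≤ (1 / s + 1) * s := by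
        apply mul_le_mul_of_nonneg_right _ hs0.le
        linarith
      have h4 : (1 / s + 1) * s = 1 + s := by field_simp
      linarith
    · have hbp : s ≤ b p := by
        have h2 := hlin p hpos h1
        have h3 : s ≤ p * ρ := by
          rw [← hss]
          have : 1 / s * s ^ 2 = s := by field_simp
          nlinarith [mul_le_mul_of_nonneg_right hp1 (sq_nonneg s)]
        linarith
      have hinv : ∀ i, p + i ≤ k → (b (p + i))⁻¹ + 2 / 3 * i ≤ s⁻¹ := by
        intro i
        induction i with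
        | zero =>
          intro _
          simp only [Nat.cast_zero, mul_zero, add_zero]
          exact inv_anti₀ hs0 hbp
        | succ i ih =>
          intro hi
          have h2 := ih (by omega)
          have h3 := hrec (p + i) (by omega) (by omega)
          have h4 : b (p + i) * (1 + b (p + i)) ≤ b (p + i + 1) := by nlinarith
          have h5 := hb0 (p + i)
          have h6 : (b (p + i + 1))⁻¹ ≤ (b (p + i) * (1 + b (p + i)))⁻¹ :=
            inv_anti₀ (by positivity) h4
          have h7 : (b (p + i) * (1 + b (p + i)))⁻¹ = (b (p + i))⁻¹ - (1 + b (p + i))⁻¹ := by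
            field_simp
            ring
          have h8 : 2 / 3 ≤ (1 + b (p + i))⁻¹ := by
            rw [le_inv_comm₀ (by norm_num) (by positivity)]
            have := hbh (p + i)
            norm_num
            linarith
          rw [← add_assoc]
          push_cast
          linarith
      have h2 := hinv (k - p) (by omega)
      rw [show p + (k - p) = k by omega, Nat.cast_sub h1] at h2
      have h3 : 0 < (b k)⁻¹ := inv_pos.2 (hb0 k)
      have h4 : (k : ℝ) < p + 3 / 2 * s⁻¹ := by linarith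
      have h5 : (k : ℝ) * s ≤ (1 / s + 1 + 3 / 2 * s⁻¹) * s := by
        apply mul_le_mul_of_nonneg_right _ hs0.le
        linarith
      have h6 : (1 / s + 1 + 3 / 2 * s⁻¹) * s = 5 / 2 + s := by field_simp; ring
      linarith
  have hk0 : (0 : ℝ) ≤ k := Nat.cast_nonneg k
  have : ((k : ℝ) * s) ^ 2 ≤ 9 := by nlinarith [mul_nonneg hk0 hs0.le]
  rw [← hss]
  nlinarith

theorem balanced_BT (k : ℕ) (hk : 1 ≤ k) : Balanced (BT k) := by
  induction k using Nat.strong_induction_on with
  | _ k ih =>
    rcases Nat.lt_or_ge k 2 with h | h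
    · obtain rfl : k = 1 := by omega
      rw [BT_one]; trivial
    · rw [BT_eq h, Sp.Balanced, size_BT _ (by omega), size_BT _ (by omega)]
      exact ⟨ih _ (by omega) (by omega), ih _ (by omega) (by omega), by omega, by omega⟩

theorem B_sq : (1 - 2 * B) ^ 2 = 1 - 4 * X := by
  linear_combination (-4 : ℝ⟦X⟧) * B_eq

/-- Q1: for each `k`, for all large `n`, the balanced tree has the least and the caterpillar has the
largest number of DL-histories of size `n` among the species trees with `k` leaves.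
Q2: the growth factors exist; that of the caterpillar grows superlinearly (at least as `k² / 9`) and
that of the balanced tree is between `4 k` and `15 k`. -/
theorem result :
    (∀ k, 1 ≤ k → ∃ N, ∀ n, N ≤ n → ∀ S : Sp, size S = k →
      h (BT k) n ≤ h S n ∧ h S n ≤ h (CT k) n) ∧
    (∀ S : Sp, Tendsto (fun n : ℕ => (h S n) ^ (1 / (n : ℝ))) atTop (𝓝 (alpha S))) ∧
    Tendsto (fun k : ℕ => alpha (CT k) / k) atTop atTop ∧
    (∀ k : ℕ, 1 ≤ k → (k : ℝ) ^ 2 / 9 ≤ alpha (CT k)) ∧
    (∀ k : ℕ, 1 ≤ k → 4 * (k : ℝ) ≤ alpha (BT k) ∧ alpha (BT k) ≤ 15 * k) ∧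
    (∀ k, 1 ≤ k → size (CT k) = k ∧ size (BT k) = k ∧ Balanced (BT k)) ∧
    (constantCoeff B = 0 ∧ (1 - 2 * B) ^ 2 = 1 - 4 * X) := by
  refine ⟨?_, tendsto_alpha, ?_, fun k hk => le_alpha_CT hk, ?_,
    fun k hk => ⟨size_CT k hk, size_BT k hk, balanced_BT k hk⟩, B_const, B_sq⟩
  · intro k _
    have h1 : ∀ᶠ n in atTop, ∀ S ∈ {S : Sp | size S = k},
        h (BT k) n ≤ h S n ∧ h S n ≤ h (CT k) n := by
      rw [eventually_all_finite (finite_size k)]
      intro S hS
      have hS' : size S = k := hS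
      rw [← hS']
      filter_upwards [eventually_bt S, eventually_ct S] with n h1 h2
      exact ⟨h1, h2⟩
    obtain ⟨N, hN⟩ := eventually_atTop.1 h1
    exact ⟨N, fun n hn S hS => hN n hn S hS⟩
  · have h1 : Tendsto (fun k : ℕ => (k : ℝ) / 9) atTop atTop :=
      tendsto_natCast_atTop_atTop.atTop_div_const (by norm_num)
    apply tendsto_atTop_mono' atTop _ h1
    filter_upwards [eventually_ge_atTop 1] with k hk
    have hk0 : (0 : ℝ) < k := by exact_mod_cast hk
    rw [le_div_iff₀ hk0]
    have := le_alpha_CT hk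
    nlinarith
  · intro k hk
    refine ⟨?_, alpha_BT_le hk⟩
    have := four_mul_le (BT k)
    rwa [size_BT k hk] at this

end Pool.Agent.Results.MP_f5c34b_co.ExtremalSpeciesTrees
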